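import Mathlib
import Pool.Agent.Helper31.AP.Main

set_option autoImplicit false

namespace Pool.Agent.Results.MP_2475ca_al.AllConfigurations

/-- Let `G` be a group of permutations of a finite nonempty set `Ω`, `M ≤ G` transitive on `Ω`, and `P` a
`G`-invariant partition of the set of ordered pairs of distinct points, the parts being permuted transitively
by `G` and fixed by `M`. Then the `r`-part of `|Ω|` is `1` modulo `|P|`, for every prime `r`. -/
theorem result (Ω : Type) [Finite Ω] [Nonempty Ω] (G M : Subgroup (Equiv.Perm Ω))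
    (P : Set (Set (Ω × Ω))) (hMG : M ≤ G) (hM : ∀ a b : Ω, ∃ m ∈ M, m a = b)
    (hne : ∀ A ∈ P, A.Nonempty) (harc : ∀ A ∈ P, ∀ x ∈ A, x.1 ≠ x.2)
    (hpart : ∀ x : Ω × Ω, x.1 ≠ x.2 → ∃! A, A ∈ P ∧ x ∈ A)
    (hG : ∀ g ∈ G, ∀ A ∈ P, Prod.map g g '' A ∈ P)
    (htr : ∀ A ∈ P, ∀ B ∈ P, ∃ g ∈ G, Prod.map g g '' A = B)
    (hMA : ∀ m ∈ M, ∀ A ∈ P, Prod.map m m '' A = A) (r : ℕ) (hr : r.Prime) :
    r ^ (Nat.card Ω).factorization r ≡ 1 [MOD P.ncard] := by
  classical
  by_cases hP : Nonempty P
  · obtain ⟨A0⟩ := hP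
    let c : Ω → Ω → P := fun a b =>
      if h : a ≠ b then ⟨(hpart (a, b) h).choose, (hpart (a, b) h).choose_spec.1.1⟩ else A0
    have hc1 : ∀ a b : Ω, a ≠ b → (a, b) ∈ (c a b : Set (Ω × Ω)) := by
      intro a b h
      simp only [c, dif_pos h]
      exact (hpart (a, b) h).choose_spec.1.2
    have hc2 : ∀ (a b : Ω) (A : P), a ≠ b → (a, b) ∈ (A : Set (Ω × Ω)) → c a b = A := by
      intro a b A h hA
      apply Subtype.ext
      exact (hpart (a, b) h).unique ⟨(c a b).2, hc1 a b h⟩ ⟨A.2, hA⟩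
    have hmm : ∀ (g h : Equiv.Perm Ω) (A : Set (Ω × Ω)),
        Prod.map (g * h) (g * h) '' A = Prod.map g g '' (Prod.map h h '' A) := by
      intro g h A
      rw [← Set.image_comp]
      rfl
    have h11 : ∀ A : Set (Ω × Ω), Prod.map (1 : Equiv.Perm Ω) (1 : Equiv.Perm Ω) '' A = A := by
      intro A
      have : Prod.map (1 : Equiv.Perm Ω) (1 : Equiv.Perm Ω) = (id : Ω × Ω → Ω × Ω) := by
        ext ⟨a, b⟩ <;> rfl
      rw [this, Set.image_id]
    let φ : G →* Equiv.Perm P :=
      { toFun := fun g =>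
          { toFun := fun A => ⟨Prod.map g g '' (A : Set (Ω × Ω)), hG g g.2 A A.2⟩
            invFun := fun A => ⟨Prod.map (g⁻¹ : G) (g⁻¹ : G) '' (A : Set (Ω × Ω)),
              hG (g⁻¹ : G) (g⁻¹ : G).2 A A.2⟩
            left_inv := by
              intro A
              apply Subtype.ext
              change Prod.map ((g : Equiv.Perm Ω)⁻¹ : Equiv.Perm Ω) ((g : Equiv.Perm Ω)⁻¹ : Equiv.Perm Ω) ''
                (Prod.map (g : Equiv.Perm Ω) (g : Equiv.Perm Ω) '' (A : Set (Ω × Ω))) = (A : Set (Ω × Ω))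
              rw [← hmm, inv_mul_cancel, h11]
            right_inv := by
              intro A
              apply Subtype.ext
              change Prod.map (g : Equiv.Perm Ω) (g : Equiv.Perm Ω) ''
                (Prod.map ((g : Equiv.Perm Ω)⁻¹ : Equiv.Perm Ω) ((g : Equiv.Perm Ω)⁻¹ : Equiv.Perm Ω) '' (A : Set (Ω × Ω)))
                = (A : Set (Ω × Ω))
              rw [← hmm, mul_inv_cancel, h11] }
        map_one' := by
          ext1 A
          apply Subtype.ext
          exact h11 A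
        map_mul' := by
          intro g h
          ext1 A
          apply Subtype.ext
          exact hmm g h A }
    have hφ : ∀ (g : G) (A : P), ((φ g A : P) : Set (Ω × Ω)) = Prod.map g g '' (A : Set (Ω × Ω)) :=
      fun g A => rfl
    have h1 := Pool.Agent.Helper31.AP.main (G := G) (Ω := Ω) φ c
      (by
        intro g a b hab
        have hab' : g • a ≠ g • b := fun h => hab (MulAction.injective g h)
        apply hc2 _ _ _ hab'
        rw [hφ]
        exact ⟨(a, b), hc1 a b hab, rfl⟩)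
      (by
        intro A B
        obtain ⟨g, hg, h⟩ := htr A A.2 B B.2
        exact ⟨⟨g, hg⟩, Subtype.ext h⟩)
      (by
        intro a b
        obtain ⟨m, hm, hmab⟩ := hM a b
        refine ⟨⟨m, hMG hm⟩, ?_, hmab⟩
        rw [MonoidHom.mem_ker]
        ext1 A
        apply Subtype.ext
        exact hMA m hm A A.2)
      inferInstance r hr
    rwa [Nat.card_coe_set_eq] at h1
  · have hsub : ∀ a b : Ω, a = b := by
      intro a b
      by_contra h
      obtain ⟨A, hA, -⟩ := hpart (a, b) h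
      exact hP ⟨⟨A, hA.1⟩⟩
    have hss : Subsingleton Ω := ⟨hsub⟩
    have h1 : Nat.card Ω = 1 := Nat.card_eq_one_iff_unique.mpr ⟨hss, inferInstance⟩
    rw [h1]
    simp only [Nat.factorization_one, Finsupp.coe_zero, Pi.zero_apply, pow_zero]
    rfl

end Pool.Agent.Results.MP_2475ca_al.AllConfigurations
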